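import Pool.Agent.Lib.MP_dee751_an.WC

/-! Weighted shifts with finite-dimensional levels: no invertibility, any dimensions. -/

namespace Pool.Agent.Lib.MP_dee751_an.G

open Module Finset Filter Topology
open scoped InnerProductSpace
open Pool.Agent.Lib.MP_dee751_an.W Pool.Agent.Lib.MP_dee751_an.E

section Const
variable {E : Type*} [NormedAddCommGroup E] [InnerProductSpace ℂ E] [FiniteDimensional ℂ E]
  {A : lp (fun _ : ℤ => E) 2 →L[ℂ] lp (fun _ : ℤ => E) 2} {W : ℤ → E →L[ℂ] E}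

/-- The case of weights bounded below. -/
theorem pair_below [Nontrivial E] (hA : ∀ x n, A x (n + 1) = W n (x n))
    (inj : ∀ n, Function.Injective (W n)) {β : ℤ → E ≃L[ℂ] E}
    (hβ : ∀ n v, β (n + 1) v = W n (β n v)) {c : ℝ} (hc : 1 ≤ c)
    (b1 : ∀ n v, ‖β (n + 1) v‖ ≤ c * ‖β n v‖) (b2 : ∀ n v, ‖β n v‖ ≤ c * ‖β (n + 1) v‖) :
    Pair A := by
  obtain ⟨a, w, ha, hw, h⟩ := limit (β := β) hc b1 b2
  refine ⟨a, w, ha, hw, fun S hS => diag S a w fun k => ?_⟩
  obtain ⟨s, es⟩ := comm_diag hA inj hβ hS k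
  refine (h k s ‖S‖ (norm_nonneg S) fun j v => ?_).congr fun L => sum_congr rfl fun n _ => ?_
  · rw [es]
    exact (lp.norm_apply_le_norm two_ne_zero _ _).trans ((S.le_opNorm _).trans (by rw [norm_sg]))
  · have := es (n - k) ((β (n - k)).symm (a (n - k)))
    rw [sub_add_cancel, ContinuousLinearEquiv.apply_symm_apply] at this
    rw [this]

/-- Symbols of bounded operators that lower the level by one. -/
def low (β : ℤ → E ≃L[ℂ] E) : Submodule ℂ (E →L[ℂ] E) where
  carrier := {s | ∃ C : ℝ, 0 ≤ C ∧ ∀ j v, ‖β (j + -1) (s v)‖ ≤ C * ‖β j v‖}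
  zero_mem' := ⟨0, le_rfl, fun j v => by simp⟩
  add_mem' := by
    rintro s t ⟨C, hC, hs⟩ ⟨D, hD, ht⟩
    refine ⟨C + D, add_nonneg hC hD, fun j v => ?_⟩
    rw [add_apply, map_add, add_mul]
    exact (norm_add_le _ _).trans (add_le_add (hs j v) (ht j v))
  smul_mem' := by
    rintro z s ⟨C, hC, hs⟩
    refine ⟨‖z‖ * C, mul_nonneg (norm_nonneg z) hC, fun j v => ?_⟩
    rw [smul_apply, map_smul, norm_smul, mul_assoc]
    exact mul_le_mul_of_nonneg_left (hs j v) (norm_nonneg z)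

omit [FiniteDimensional ℂ E] in
lemma low_mul {β : ℤ → E ≃L[ℂ] E} {c : ℝ} (hc : 0 ≤ c)
    (b1 : ∀ n v, ‖β (n + 1) v‖ ≤ c * ‖β n v‖) {s t : E →L[ℂ] E} (hs : s ∈ low β)
    (ht : t ∈ low β) : s * t ∈ low β := by
  obtain ⟨C, hC, hs⟩ := hs
  obtain ⟨D, hD, ht⟩ := ht
  refine ⟨C * (c * D), by positivity, fun j v => (hs j (t v)).trans ?_⟩
  have h1 := b1 (j + -1) (t v)
  rw [neg_add_cancel_right] at h1
  rw [mul_assoc, mul_assoc]
  exact mul_le_mul_of_nonneg_left (h1.trans (mul_le_mul_of_nonneg_left (ht j v) hc)) hC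

/-- A space of operators closed under products in which every vector is fixed by some element
contains the identity. -/
lemma one_mem_of_fix {J : Submodule ℂ (E →L[ℂ] E)} (hm : ∀ s ∈ J, ∀ t ∈ J, s * t ∈ J)
    (hf : ∀ f, ∃ s ∈ J, s f = f) : (1 : E →L[ℂ] E) ∈ J := by
  classical
  have key : ∀ T : Finset E, ∃ s ∈ J, ∀ f ∈ T, s f = f := fun T => by
    induction T using Finset.induction_on with
    | empty => exact ⟨0, J.zero_mem, by simp⟩
    | insert x T _ ih =>
      obtain ⟨s, hs, h1⟩ := ih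
      obtain ⟨t, ht, h2⟩ := hf (x - s x)
      refine ⟨s + t - t * s, J.sub_mem (J.add_mem hs ht) (hm t ht s hs), fun f hf => ?_⟩
      rcases mem_insert.1 hf with rfl | hf
      · rw [map_sub] at h2
        simp only [sub_apply, add_apply,
          mul_apply_eq_comp]
        rw [add_sub_assoc, h2, add_sub_cancel]
      · simp [h1 f hf]
  obtain ⟨s, hs, h⟩ := key (univ.image (finBasis ℂ E))
  have : (s : E →ₗ[ℂ] E) = LinearMap.id :=
    (finBasis ℂ E).ext fun i => h _ (mem_image_of_mem _ (mem_univ i))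
  have e : s = 1 := ContinuousLinearMap.ext fun v => LinearMap.congr_fun this v
  exact e ▸ hs

theorem pair_inj [Nontrivial E] (hA : ∀ x n, A x (n + 1) = W n (x n))
    (inj : ∀ n, Function.Injective (W n)) : Pair A := by
  obtain ⟨β, hβ⟩ := exists_beta fun n =>
    (LinearEquiv.ofInjectiveEndo (W n : E →ₗ[ℂ] E) (inj n)).toContinuousLinearEquiv
  replace hβ : ∀ n v, β (n + 1) v = W n (β n v) := hβ
  have b1 : ∀ n v, ‖β (n + 1) v‖ ≤ ‖A‖ * ‖β n v‖ := fun n v => by
    have := A.le_opNorm (lp.single 2 n (β n v))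
    rwa [shift_single hA, norm_sg, norm_sg, ← hβ] at this
  let F : E → Submodule ℂ E := fun f => (low β).map
    ((β (0 + -1)).toLinearEquiv.toLinearMap.comp (ContinuousLinearMap.apply ℂ E f).toLinearMap)
  by_cases h : ∀ f, f ≠ 0 → F f = ⊤
  · obtain ⟨C, hC, h1⟩ := one_mem_of_fix (J := low β)
      (fun s hs t ht => low_mul (norm_nonneg A) b1 hs ht) fun f => by
        by_cases h0 : f = 0
        · exact ⟨0, (low β).zero_mem, by simp [h0]⟩
        · obtain ⟨s, hs, e⟩ : β (0 + -1) f ∈ F f := by rw [h f h0]; trivial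
          exact ⟨s, hs, (β (0 + -1)).injective e⟩
    refine pair_below hA inj hβ (c := 1 + ‖A‖ + C) (by linarith [norm_nonneg A])
      (fun n v => (b1 n v).trans ?_) fun n v => ?_
    · exact mul_le_mul_of_nonneg_right (by linarith) (norm_nonneg _)
    · have := h1 (n + 1) v
      rw [add_neg_cancel_right] at this
      exact this.trans (mul_le_mul_of_nonneg_right (by linarith [norm_nonneg A]) (norm_nonneg _))
  · push Not at h
    obtain ⟨f, hf, hF⟩ := h
    obtain ⟨u, hu, u0⟩ := (Submodule.ne_bot_iff _).1 (mt Submodule.orthogonal_eq_bot_iff.1 hF)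
    refine ⟨lp.single 2 0 (β 0 f), lp.single 2 (0 + -1) u, fun e => hf ?_, fun e => u0 ?_,
      fun S hS => ?_⟩
    · have := norm_sg 0 (β 0 f)
      rw [e, norm_zero, eq_comm, norm_eq_zero] at this
      simpa using this
    · have := norm_sg (0 + -1) u
      rwa [e, norm_zero, eq_comm, norm_eq_zero] at this
    · obtain ⟨s, es⟩ := comm_diag hA inj hβ hS (-1)
      rw [lp.inner_single_right, ← es]
      refine (Submodule.mem_orthogonal _ _).1 hu _ ⟨s, ⟨‖S‖, norm_nonneg S, fun j v => ?_⟩, rfl⟩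
      rw [es]
      exact (lp.norm_apply_le_norm two_ne_zero _ _).trans
        ((S.le_opNorm _).trans (by rw [norm_sg]))

theorem pair_sum_inj [Nontrivial E] {H : Type*} [NormedAddCommGroup H]
    [InnerProductSpace ℂ H] [CompleteSpace H] {V : ℤ → E →ₗᵢ[ℂ] H}
    (hV : IsHilbertSum ℂ (fun _ : ℤ => E) V) {T : H →L[ℂ] H}
    (hT : ∀ n v, T (V n v) = V (n + 1) (W n v)) (inj : ∀ n, Function.Injective (W n)) :
    Pair T := by
  set e := hV.linearIsometryEquiv
  have he : ∀ n v, e.symm (lp.single 2 n v) = V n v := fun n v =>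
    hV.linearIsometryEquiv_symm_apply_single v
  let Φ := e.toContinuousLinearEquiv.conjContinuousAlgEquiv
  have hΦ : ∀ S x, Φ S x = e (S (e.symm x)) := fun _ _ => rfl
  obtain ⟨a, w, ha, hw, h⟩ := pair_inj (A := Φ T) (W := W) (fun x n => by
    have h1 := ((lp.evalCLM ℂ (fun _ : ℤ => E) 2 (n + 1)).comp (Φ T)).hasSum
      (lp.hasSum_single (by simp) x)
    have h2 : ∀ j, ((lp.evalCLM ℂ (fun _ : ℤ => E) 2 (n + 1)).comp (Φ T)) (lp.single 2 j (x j)) =
        (lp.single 2 (j + 1) (W j (x j)) : lp (fun _ : ℤ => E) 2) (n + 1) := fun j => by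
      change Φ T (lp.single 2 j (x j)) (n + 1) = _
      rw [hΦ, he, hT, ← he, e.apply_symm_apply]
    simp only [h2] at h1
    have h3 := hasSum_single (f := fun j =>
      (lp.single 2 (j + 1) (W j (x j)) : lp (fun _ : ℤ => E) 2) (n + 1)) n
      fun j hj => by simp [lp.single_apply, hj.symm]
    exact (h1.unique h3).trans (by simp)) inj
  refine ⟨e.symm a, e.symm w, by simpa using ha, by simpa using hw, fun S hS => ?_⟩
  have := h (Φ S) (by rw [← map_mul, hS, map_mul])
  rw [hΦ] at this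
  rw [← e.inner_map_map, e.apply_symm_apply, this]

end Const

variable {H : Type*} [NormedAddCommGroup H] [InnerProductSpace ℂ H] [CompleteSpace H]
  {A : H →L[ℂ] H}

lemma pair_ker (h0 : A ≠ 0) {a : H} (ha : a ≠ 0) (h : A a = 0) : Pair A := by
  obtain ⟨x, hx⟩ : ∃ x, A x ≠ 0 := by
    by_contra hn
    push Not at hn
    exact h0 (ContinuousLinearMap.ext hn)
  refine ⟨a, ContinuousLinearMap.adjoint A (A x), ha, fun e => hx ?_, fun S hS => ?_⟩
  · rw [← inner_self_eq_zero (𝕜 := ℂ), ← ContinuousLinearMap.adjoint_inner_right, e,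
      inner_zero_right]
  · rw [ContinuousLinearMap.adjoint_inner_right, ← mul_apply_eq_comp, ← hS, mul_apply_eq_comp, h,
      map_zero, inner_zero_left]

omit [CompleteSpace H] in
lemma pair_coker (h0 : A ≠ 0) {w : H} (hw : w ≠ 0) (h : ∀ x, ⟪A x, w⟫_ℂ = 0) : Pair A := by
  obtain ⟨x, hx⟩ : ∃ x, A x ≠ 0 := by
    by_contra hn
    push Not at hn
    exact h0 (ContinuousLinearMap.ext hn)
  exact ⟨A x, w, hx, hw, fun S hS => by rw [← mul_apply_eq_comp, hS, mul_apply_eq_comp, h]⟩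

omit [CompleteSpace H] in
lemma ext_graded {M : ℤ → Submodule ℂ H} (dense : Dense ((⨆ n, M n : Submodule ℂ H) : Set H))
    {G : Type*} [NormedAddCommGroup G] [NormedSpace ℂ G] (φ : H →L[ℂ] G)
    (h : ∀ n, ∀ x ∈ M n, φ x = 0) (x : H) : φ x = 0 :=
  congrFun (Continuous.ext_on (g := fun _ => 0) dense φ.continuous continuous_const fun _ hy =>
    (iSup_le (a := LinearMap.ker (φ : H →ₗ[ℂ] G)) fun n y hy => h n y hy) hy) x

theorem pair_graded (M : ℤ → Submodule ℂ H) (fin : ∀ n, FiniteDimensional ℂ (M n))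
    (orth : ∀ m n, m ≠ n → M m ⟂ M n) (dense : Dense ((⨆ n, M n : Submodule ℂ H) : Set H))
    (hA : ∀ n, ∀ x ∈ M n, A x ∈ M (n + 1)) (h0 : A ≠ 0) : Pair A := by
  by_cases hk : ∃ a, a ≠ 0 ∧ A a = 0
  · obtain ⟨a, ha, h⟩ := hk
    exact pair_ker h0 ha h
  by_cases hc : ∃ w, w ≠ 0 ∧ ∀ x, ⟪A x, w⟫_ℂ = 0
  · obtain ⟨w, hw, h⟩ := hc
    exact pair_coker h0 hw h
  let W : ∀ n, M n →ₗ[ℂ] M (n + 1) := fun n => (A : H →ₗ[ℂ] H).restrict (hA n)
  have inj : ∀ n, Function.Injective (W n) := fun n => (injective_iff_map_eq_zero _).2 fun v hv => by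
    by_contra hn
    exact hk ⟨v, fun e => hn (Subtype.ext e), congrArg Subtype.val hv⟩
  have sur : ∀ n, Function.Surjective (W n) := fun n => by
    rw [← LinearMap.range_eq_top]
    by_contra hn
    obtain ⟨u, hu, u0⟩ := (Submodule.ne_bot_iff _).1 (mt Submodule.orthogonal_eq_bot_iff.1 hn)
    refine hc ⟨u, fun e => u0 (Subtype.ext e), fun x => inner_eq_zero_symm.1 ?_⟩
    refine ext_graded dense ((innerSL ℂ (u : H)).comp A) (fun m y hy => ?_) x
    change ⟪(u : H), A y⟫_ℂ = 0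
    by_cases e : m = n
    · subst e
      exact inner_eq_zero_symm.1 ((Submodule.mem_orthogonal _ _).1 hu _ ⟨⟨y, hy⟩, rfl⟩)
    · exact (orth (n + 1) (m + 1) (by omega)).inner_eq u.2 (hA m y hy)
  have st : ∀ n, finrank ℂ (M (n + 1)) = finrank ℂ (M n) := fun n =>
    (LinearEquiv.ofBijective (W n) ⟨inj n, sur n⟩).finrank_eq.symm
  have dim : ∀ n, finrank ℂ (M n) = finrank ℂ (M 0) := fun n => by
    induction n using Int.induction_on with
    | zero => rfl
    | succ j ih => rw [st, ih]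
    | pred j ih => rw [← st, sub_add_cancel, ih]
  have pos : 0 < finrank ℂ (M 0) := Nat.pos_of_ne_zero fun e => h0 (ContinuousLinearMap.ext
    (ext_graded dense A fun n x hx => by
      rw [Submodule.finrank_eq_zero.1 ((dim n).trans e), Submodule.mem_bot] at hx
      rw [hx, map_zero]))
  have : Nonempty (Fin (finrank ℂ (M 0))) := ⟨⟨0, pos⟩⟩
  let U : ∀ n, EuclideanSpace ℂ (Fin (finrank ℂ (M 0))) ≃ₗᵢ[ℂ] M n := fun n =>
    ((stdOrthonormalBasis ℂ (M n)).reindex (finCongr (dim n))).repr.symm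
  let V : ℤ → EuclideanSpace ℂ (Fin (finrank ℂ (M 0))) →ₗᵢ[ℂ] H := fun n =>
    (M n).subtypeₗᵢ.comp (U n).toLinearIsometry
  have hV : IsHilbertSum ℂ (fun _ : ℤ => EuclideanSpace ℂ (Fin (finrank ℂ (M 0)))) V := by
    refine IsHilbertSum.mk (fun m n h v w => (orth m n h).inner_eq (U m v).2 (U n w).2) ?_
    rw [← Submodule.dense_iff_topologicalClosure_eq_top.1 dense]
    refine Submodule.topologicalClosure_mono (iSup_mono fun n x hx => ?_)
    exact ⟨(U n).symm ⟨x, hx⟩, congrArg Subtype.val ((U n).apply_symm_apply ⟨x, hx⟩)⟩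
  refine pair_sum_inj hV (W := fun n => LinearMap.toContinuousLinearMap
    ((U (n + 1)).symm.toLinearEquiv.toLinearMap.comp ((W n).comp (U n).toLinearEquiv.toLinearMap)))
    (fun n v => ?_) fun n => (U (n + 1)).symm.injective.comp ((inj n).comp (U n).injective)
  exact (congrArg Subtype.val ((U (n + 1)).apply_symm_apply (W n (U n v)))).symm

end Pool.Agent.Lib.MP_dee751_an.G
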